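import Pool.Agent.H49.SelA
import Pool.Agent.Lead.Sel.Exo
import Pool.Agent.Lead.Sel.Mel
import Pool.Agent.Lead.Sel.Ker

theorem Pool.Agent.Results.MP_bac04d_nt.EveryDegree.result :
    ∀ d : ℝ, 8 ≤ d → ∃ F : ℂ → ℂ, Pool.Agent.H49.SelA.InClass F d :=
  Pool.Agent.H49.Sel.finA Pool.Agent.Lead.Sel.sela Pool.Agent.Lead.Sel.ker0 Pool.Agent.Lead.Sel.mel
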